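import Pool.Agent.Run7.h691.Params

namespace Pool.Agent.Results.MP_fb430f_co.LowerLogLog

open Finset

/-- The lattice points of the hypersphere of radius `n` in four dimensions. -/
def S (n : ℕ) : Set (Fin 4 → ℤ) := {x | ∑ i, x i ^ 2 = (n : ℤ) ^ 2}

/-- The additive energy: the number of `(a, b, c, d)` in `P^4` with `a + b = c + d`. -/
def energy (P : Finset (Fin 4 → ℤ)) : ℕ :=
  ((P ×ˢ P ×ˢ P ×ˢ P).filter fun q => q.1 + q.2.1 = q.2.2.1 + q.2.2.2).card

/-- The largest additive energy of `m` lattice points of the hypersphere of radius `n`. -/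
noncomputable def f (m n : ℕ) : ℕ :=
  sSup {E | ∃ P : Finset (Fin 4 → ℤ), (P : Set (Fin 4 → ℤ)) ⊆ S n ∧ P.card = m ∧ energy P = E}

open Run7.h691

lemma le_f {m n : ℕ} (P : Finset (Fin 4 → ℤ)) (hP : (P : Set (Fin 4 → ℤ)) ⊆ S n)
    (hm : P.card = m) : energy P ≤ f m n := by
  refine le_csSup ⟨m ^ 4, ?_⟩ ⟨P, hP, hm, rfl⟩
  rintro E ⟨R, -, hR, rfl⟩
  refine (Finset.card_filter_le _ _).trans ?_
  simp only [Finset.card_product, hR]
  apply le_of_eq
  ring

/-- The Cauchy-Schwarz lower bound for the energy. -/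
lemma energy_lower (P U : Finset (Fin 4 → ℤ)) (h : ∀ a ∈ P, ∀ b ∈ P, a + b ∈ U) :
    P.card ^ 4 ≤ U.card * energy P := by
  classical
  have h1 := Finset.card_sq_le_card_mul_addEnergy P P U
  have h2 : ((P ×ˢ P).filter fun x => x.1 + x.2 ∈ U) = P ×ˢ P := by
    apply Finset.filter_true_of_mem
    intro x hx
    rw [Finset.mem_product] at hx
    exact h _ hx.1 _ hx.2
  rw [h2, Finset.card_product] at h1
  have h3 : Finset.addEnergy P P = energy P := by
    unfold Finset.addEnergy energy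
    refine Finset.card_bij (fun x _ => (x.1.1, x.2.1, x.1.2, x.2.2)) ?_ ?_ ?_
    · intro x hx
      simp only [Finset.mem_filter, Finset.mem_product] at hx ⊢
      tauto
    · rintro ⟨⟨a, b⟩, c, d⟩ _ ⟨⟨a', b'⟩, c', d'⟩ _ hxy
      simp only [Prod.mk.injEq] at hxy ⊢
      tauto
    · rintro ⟨a, b, c, d⟩ hx
      simp only [Finset.mem_filter, Finset.mem_product] at hx
      refine ⟨((a, c), (b, d)), ?_, rfl⟩
      simp only [Finset.mem_filter, Finset.mem_product]
      tauto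
  rw [h3] at h1
  calc P.card ^ 4 = (P.card * P.card) ^ 2 := by ring
    _ ≤ _ := h1

/-- Multiplication of the quaternion `α` by the quaternion `x`. -/
def qmul (α x : Fin 4 → ℤ) : Fin 4 → ℤ :=
  ![α 0 * x 0 - α 1 * x 1 - α 2 * x 2 - α 3 * x 3,
    α 0 * x 1 + α 1 * x 0 + α 2 * x 3 - α 3 * x 2,
    α 0 * x 2 - α 1 * x 3 + α 2 * x 0 + α 3 * x 1,
    α 0 * x 3 + α 1 * x 2 - α 2 * x 1 + α 3 * x 0]

lemma nsq_qmul (α x : Fin 4 → ℤ) : nsq (qmul α x) = nsq α * nsq x := by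
  simp only [nsq, qmul, Matrix.cons_val_zero, Matrix.cons_val_one, Matrix.cons_val]
  ring

lemma qmul_add (α x y : Fin 4 → ℤ) : qmul α (x + y) = qmul α x + qmul α y := by
  funext i
  fin_cases i <;>
  simp only [qmul, Pi.add_apply, Matrix.cons_val_zero, Matrix.cons_val_one, Matrix.cons_val,
    Fin.zero_eta, Fin.mk_one, Fin.reduceFinMk] <;> ring

lemma nsq_eq_zero {x : Fin 4 → ℤ} (h : nsq x = 0) : x = 0 := by
  unfold nsq at h
  have h0 : x 0 = 0 := by nlinarith [sq_nonneg (x 0), sq_nonneg (x 1), sq_nonneg (x 2), sq_nonneg (x 3)]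
  have h1 : x 1 = 0 := by nlinarith [sq_nonneg (x 0), sq_nonneg (x 1), sq_nonneg (x 2), sq_nonneg (x 3)]
  have h2 : x 2 = 0 := by nlinarith [sq_nonneg (x 0), sq_nonneg (x 1), sq_nonneg (x 2), sq_nonneg (x 3)]
  have h3 : x 3 = 0 := by nlinarith [sq_nonneg (x 0), sq_nonneg (x 1), sq_nonneg (x 2), sq_nonneg (x 3)]
  funext i
  fin_cases i <;> assumption

lemma qmul_inj {α : Fin 4 → ℤ} (hα : nsq α ≠ 0) : Function.Injective (qmul α) := by
  intro x y hxy
  have h1 : qmul α (x - y) = 0 := by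
    have h2 := qmul_add α (x - y) y
    rw [sub_add_cancel, hxy] at h2
    exact left_eq_add.mp (by rw [add_comm]; exact h2)
  have h3 : nsq α * nsq (x - y) = 0 := by
    rw [← nsq_qmul, h1]
    simp [nsq]
  rcases mul_eq_zero.mp h3 with h | h
  · exact absurd h hα
  · exact sub_eq_zero.mp (nsq_eq_zero h)

lemma energy_image {P : Finset (Fin 4 → ℤ)} {α : Fin 4 → ℤ} (hα : nsq α ≠ 0) :
    energy P ≤ energy (P.image (qmul α)) := by
  unfold energy
  refine Finset.card_le_card_of_injOn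
    (fun q => (qmul α q.1, qmul α q.2.1, qmul α q.2.2.1, qmul α q.2.2.2)) ?_ ?_
  · intro q hq
    simp only [Finset.coe_filter, Finset.mem_product, Set.mem_ofPred_eq] at hq ⊢
    refine ⟨⟨Finset.mem_image_of_mem _ hq.1.1, Finset.mem_image_of_mem _ hq.1.2.1,
      Finset.mem_image_of_mem _ hq.1.2.2.1, Finset.mem_image_of_mem _ hq.1.2.2.2⟩, ?_⟩
    rw [← qmul_add, ← qmul_add, hq.2]
  · rintro ⟨a, b, c, d⟩ _ ⟨a', b', c', d'⟩ _ h
    simp only [Prod.mk.injEq] at h ⊢
    exact ⟨qmul_inj hα h.1, qmul_inj hα h.2.1, qmul_inj hα h.2.2.1, qmul_inj hα h.2.2.2⟩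

/-- There are positive constants such that for every large `m` some radius `n` of size at most
`C m / log log m` and all its multiples carry `m` lattice points of additive energy at least
`c m^2 (log log m)^2`. -/
theorem result :
    ∃ c C : ℝ, 0 < c ∧ 0 < C ∧ ∃ m₀ : ℕ, ∀ m : ℕ, m₀ ≤ m →
      ∃ n : ℕ, 1 ≤ n ∧ (n : ℝ) ≤ C * m / Real.log (Real.log m) ∧
        ∀ k : ℕ, 1 ≤ k → (m : ℕ∞) ≤ (S (k * n)).encard ∧
          c * (m : ℝ) ^ 2 * (Real.log (Real.log m)) ^ 2 ≤ (f m (k * n) : ℝ) := by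
  classical
  obtain ⟨m₀, hm₀⟩ := params
  refine ⟨1 / 2 ^ 20, 1024, by positivity, by norm_num, max m₀ ⌈Real.exp 3⌉₊, fun m hm => ?_⟩
  have hm3 : Real.exp 3 ≤ m :=
    (Nat.le_ceil _).trans (by exact_mod_cast (le_max_right _ _).trans hm)
  have hmpos : (0 : ℝ) < m := (Real.exp_pos _).trans_le hm3
  have hlog3 : (3 : ℝ) ≤ Real.log m := by
    rw [Real.le_log_iff_exp_le hmpos]
    exact hm3
  have hll : 0 < Real.log (Real.log m) := Real.log_pos (by linarith)
  have hm2 : 2 ≤ m := by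
    have h1 : (3 : ℝ) + 1 ≤ Real.exp 3 := Real.add_one_le_exp 3
    have h2 : (2 : ℝ) ≤ m := by linarith
    exact_mod_cast h2
  obtain ⟨L, Q, hL, hQ, hcard, hLQ⟩ := hm₀ m ((le_max_left _ _).trans hm)
  obtain ⟨N, hN, hN2⟩ := exists_many L Q hL hQ
  have hmle : m ≤ ((cube (L * Q)).filter fun x => nsq x = N).card := by
    exact_mod_cast hcard.trans hN2
  obtain ⟨P, hPsub, hPcard⟩ := Finset.exists_subset_card_eq hmle
  have hP1 : ∀ x ∈ P, x ∈ cube (L * Q) ∧ nsq x = N := fun x hx => by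
    simpa [Finset.mem_filter] using hPsub hx
  -- `N` is positive
  have hNpos : 0 < N := by
    by_contra h0
    have h0' : N = 0 := by omega
    obtain ⟨a, ha, b, hb, hab⟩ := Finset.one_lt_card.mp (by omega : 1 < P.card)
    apply hab
    have e1 := (hP1 a ha).2
    have e2 := (hP1 b hb).2
    rw [h0'] at e1 e2
    have z1 : a = 0 := nsq_eq_zero (by simpa using e1)
    have z2 : b = 0 := nsq_eq_zero (by simpa using e2)
    rw [z1, z2]
  -- the energy of `P`
  have hU : P.card ^ 4 ≤ (cube (2 * (L * Q))).card * energy P := by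
    refine energy_lower P _ fun a ha b hb => ?_
    have h1 := mem_box.mp (hP1 a ha).1
    have h2 := mem_box.mp (hP1 b hb).1
    rw [mem_box]
    intro i
    have h3 := h1 i
    have h4 := h2 i
    rw [Pi.add_apply]
    push_cast at h3 h4 ⊢
    constructor <;> linarith
  have hboxcard : (cube (2 * (L * Q))).card = (2 * (L * Q)) ^ 4 := by
    rw [cube, Fintype.card_piFinset]
    simp only [Int.card_Ico, sub_zero, Int.toNat_natCast, Finset.prod_const, Finset.card_univ,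
      Fintype.card_fin]
  rw [hPcard, hboxcard] at hU
  have hUr : (m : ℝ) ^ 4 ≤ (2 * ((L * Q : ℕ) : ℝ)) ^ 4 * energy P := by exact_mod_cast hU
  have hE : 1 / 2 ^ 20 * (m : ℝ) ^ 2 * (Real.log (Real.log m)) ^ 2 ≤ (energy P : ℝ) := by
    set w := Real.log (Real.log m) with hw
    have h1 : (2 * ((L * Q : ℕ) : ℝ)) ^ 4 ≤ 16 * (256 * m / w) ^ 2 := by
      have : (2 * ((L * Q : ℕ) : ℝ)) ^ 4 = 16 * ((((L * Q : ℕ) : ℝ)) ^ 2) ^ 2 := by ring
      rw [this]
      gcongr
    have h2 : (m : ℝ) ^ 4 ≤ 16 * (256 * m / w) ^ 2 * energy P :=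
      hUr.trans (mul_le_mul_of_nonneg_right h1 (by positivity))
    have h3 : 16 * (256 * m / w) ^ 2 * (energy P : ℝ)
        = (m : ℝ) ^ 2 * (2 ^ 20 / w ^ 2 * energy P) := by
      field_simp
      ring
    have h4 : (m : ℝ) ^ 2 * (m : ℝ) ^ 2 ≤ (m : ℝ) ^ 2 * (2 ^ 20 / w ^ 2 * energy P) := by
      rw [← h3]
      calc (m : ℝ) ^ 2 * (m : ℝ) ^ 2 = (m : ℝ) ^ 4 := by ring
        _ ≤ _ := h2
    have h5 : (m : ℝ) ^ 2 ≤ 2 ^ 20 / w ^ 2 * energy P := le_of_mul_le_mul_left h4 (by positivity)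
    calc (1 : ℝ) / 2 ^ 20 * (m : ℝ) ^ 2 * w ^ 2
        ≤ (1 : ℝ) / 2 ^ 20 * (2 ^ 20 / w ^ 2 * (energy P : ℝ)) * w ^ 2 := by gcongr
      _ = (energy P : ℝ) := by field_simp
  refine ⟨N, hNpos, ?_, fun k hk => ?_⟩
  · have h1 : (N : ℝ) ≤ 4 * ((L * Q : ℕ) : ℝ) ^ 2 := by exact_mod_cast hN.le
    refine h1.trans ?_
    calc 4 * ((L * Q : ℕ) : ℝ) ^ 2 ≤ 4 * (256 * m / Real.log (Real.log m)) := by gcongr
      _ = 1024 * m / Real.log (Real.log m) := by ring
  · obtain ⟨a, b, c, d, habcd⟩ := Nat.sum_four_squares N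
    set α : Fin 4 → ℤ := ![(k : ℤ) * a, k * b, k * c, k * d] with hα
    have hαN : nsq α = (k : ℤ) ^ 2 * N := by
      simp only [nsq, hα, Matrix.cons_val_zero, Matrix.cons_val_one, Matrix.cons_val]
      rw [← habcd]
      push_cast
      ring
    have hα0 : nsq α ≠ 0 := by
      rw [hαN]
      have h1 : (0 : ℤ) < k := by exact_mod_cast hk
      have h2 : (0 : ℤ) < N := by exact_mod_cast hNpos
      positivity
    have hsub : ((P.image (qmul α) : Finset (Fin 4 → ℤ)) : Set (Fin 4 → ℤ)) ⊆ S (k * N) := by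
      intro z hz
      rw [Finset.mem_coe, Finset.mem_image] at hz
      obtain ⟨x, hx, rfl⟩ := hz
      have h1 := nsq_qmul α x
      rw [(hP1 x hx).2, hαN] at h1
      simp only [S, Set.mem_ofPred_eq, Fin.sum_univ_four]
      unfold nsq at h1
      rw [h1]
      push_cast
      ring
    have hcardI : (P.image (qmul α)).card = m := by
      rw [Finset.card_image_of_injective _ (qmul_inj hα0), hPcard]
    constructor
    · have h1 := Set.encard_le_encard hsub
      rw [Set.encard_coe_eq_coe_finsetCard, hcardI] at h1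
      exact h1
    · refine hE.trans ?_
      exact_mod_cast (energy_image hα0).trans (le_f _ hsub hcardI)

end Pool.Agent.Results.MP_fb430f_co.LowerLogLog
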